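import Pool.Agent.H92.S2.LUT2
import Pool.Agent.H14.SFU.UPN

/-!
Module UPN2: the upper bound, if there are no sections of negative twist (THEOREM S, part 2).
-/

set_option autoImplicit false

namespace Pool.Agent.H13.SFV

open MvPolynomial
open Pool.Agent.H84.SM (dp cr dt)
open Pool.Agent.H3.SF Pool.Agent.H3.S2 Pool.Agent.H92.SF Pool.Agent.H92.S2
open Pool.Agent.H14.SFU (Wk mem_Wk SS_mono tw_one)

theorem pf_UPN2 (hFRK : T_FRK2) (hFIN : T_FIN2) (hUON : T_UON2) (hUTH : T_UTH2)
    (hLMG : T_LMG2) : T_UPN2 := by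
  classical
  intro k F _ _ _ _ _ u dd δ j0 c0 J m G hG n j2 hj hneg
  have _h := hFIN
  obtain ⟨-, -, hE, hItg, -, -⟩ := hFRK k F u dd δ j0 c0 J m G hG.toBw
  have hcf : cf u dd J m G 1 (1 : Q2 F).natDegree 0 ≠ 0 := by
    unfold cf
    rw [map_one, Polynomial.natDegree_one, Polynomial.coeff_one_zero, coeff_zero_one]
    exact one_ne_zero
  have hW : ∀ τ : ℤ, τ ≤ 0 → Module.Finite (kap k u) (Wk u dd J m G hE 1 n τ) ∧
      (Module.finrank (kap k u) (Wk u dd J m G hE 1 n τ) : ℤ) ≤ SS δ j2 m 0 0 0 n 0 0 := by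
    intro τ hτ
    have h := hUTH k F u dd δ j0 c0 J m G hG 0 0 1 one_ne_zero (tw_one u dd) 0 hcf 0 0 ?_ n j2 τ
      (Wk u dd J m G hE 1 n τ) hj ?_
    · rw [Polynomial.natDegree_one] at h
      exact ⟨h.1, h.2.trans (SS_mono _ _ _ _ _ _ _ _ hτ)⟩
    · intro e W hWx
      have h1 := hLMG k F u dd δ j0 c0 J m G hG.toBw 1 0 1 1 (isHomogeneous_one _ _)
        (by
          rw [Finsupp.single_zero, coeff_zero_one]
          exact one_ne_zero) isRelPrime_one_right
        (by
          rw [map_one, map_one, mul_one]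
          rfl) 0 e W ?_
      · exact h1
      · intro x hx
        obtain ⟨h2, h3, -⟩ := hWx x hx
        refine ⟨h2, h3, ?_⟩
        rw [pow_zero, mul_one]
        exact h3
    · intro V hV
      rw [pow_zero]
      exact mem_Wk.1 hV
  have hchain : ∀ t : ℕ, (Module.finrank k (E u dd J m G n 0) : ℤ) ≤
      Module.finrank k (E u dd J m G n (-(t : ℤ))) + t * SS δ j2 m 0 0 0 n 0 0 := by
    intro t
    induction t with
    | zero =>
      have h0 : (-((0 : ℕ) : ℤ)) = 0 := by norm_num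
      rw [h0]
      push_cast
      linarith
    | succ t ih =>
      obtain ⟨h1, h2⟩ := hW (-(t : ℤ)) (by omega)
      have h3 := hUON k F u dd δ j0 c0 J m G hG.toBw n (-(t : ℤ))
        (Wk u dd J m G hE 1 n (-(t : ℤ))) h1 ?_
      · have h4 : (-(t : ℤ)) - 1 = -((t + 1 : ℕ) : ℤ) := by
          push_cast
          ring
        rw [h4] at h3
        have h5 : (Module.finrank k (E u dd J m G n (-(t : ℤ))) : ℤ) ≤
            Module.finrank k (E u dd J m G n (-((t + 1 : ℕ) : ℤ))) +
            Module.finrank (kap k u) (Wk u dd J m G hE 1 n (-(t : ℤ))) := by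
          exact_mod_cast h3
        have h6 : ((t + 1 : ℕ) : ℤ) * SS δ j2 m 0 0 0 n 0 0 =
            t * SS δ j2 m 0 0 0 n 0 0 + SS δ j2 m 0 0 0 n 0 0 := by
          push_cast
          ring
        rw [h6]
        linarith
      · intro V hV
        exact ⟨hV.1, fun j a => hItg _ (hV.2 j a), one_dvd _⟩
  have h1 := hchain (2 * n * j2 + 1)
  have h2 : E u dd J m G n (-((2 * n * j2 + 1 : ℕ) : ℤ)) = ⊥ := by
    rw [Submodule.eq_bot_iff]
    exact hneg
  rw [h2, finrank_bot] at h1
  push_cast at h1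
  linarith

end Pool.Agent.H13.SFV
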